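import Pool.Agent.Lib.MP_988b7a_gt.T.Main

namespace Pool.Agent.Results.MP_988b7a_gt.EveryRank

open Pool.Agent.Lib.MP_988b7a_gt Pool.Agent.Lib.MP_988b7a_gt.T

theorem result (r : ℕ) (hr : 1 ≤ r) : ∃ f : C(Holed, Wedge r),
    (∀ i, ¬ (f.restrict (rim i)).Nullhomotopic) ∧ (∀ i, ∃ v ∈ rim i, (f v).1 = 1) ∧
      ∀ (V : Set Holed) (hV : V ⊆ edge), ¬ H1Finite (MCGf hV f) :=
  ⟨fm ⟨0, hr⟩, essential _, exists_base _, fun _ hV => T.not_finite _ hV⟩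

end Pool.Agent.Results.MP_988b7a_gt.EveryRank
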