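import Pool.Agent.Lib.MP_988b7a_gt.Main

/-! A map from a sphere with six holes to the bouquet of two circles whose stabiliser in the
mapping class group has infinitely generated first integral homology. -/

namespace Pool.Agent.Results.MP_988b7a_gt.NotFinite

open Pool.Agent.Lib.MP_988b7a_gt

theorem result : ∃ f : C(Surf, Bouquet),
    (∀ i, ¬ (f.restrict (circ i)).Nullhomotopic) ∧
    (∀ i, ∃ v ∈ circ i, (f v).1 = (1, 1)) ∧
    ∀ (V : Set Surf) (hV : V ⊆ bd), (∀ i, ∃ v ∈ V, v ∈ circ i) →
      ¬ H1Finite (MCGf hV f) :=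
  ⟨fm, essential, exists_base, fun _ hV hv => not_finite hV hv⟩

end Pool.Agent.Results.MP_988b7a_gt.NotFinite
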